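import Pool.Agent.H63.PK.Targets

/-!
# Row ESB of the board pwk (helper63, MP_559314_gt)

First properties of the exponential of a set function.
-/

set_option autoImplicit false

namespace Pool.Agent.H13.PK

open Pool.Agent.H59.LIN Pool.Agent.H13.LN Pool.Agent.H63.PK

theorem card_sdiff_lt {T J : Finset ℕ} {a : ℕ} (ha : a ∈ T) (haJ : a ∈ J) :
    (T \ J).card < T.card :=
  Finset.card_lt_card (Finset.ssubset_iff_of_subset Finset.sdiff_subset |>.2
    ⟨a, ha, fun h2 => (Finset.mem_sdiff.1 h2).2 haJ⟩)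

theorem esb1 (h : T_ESA) (A : Type) [CommRing A] (f f' : Finset ℕ → A) :
    ∀ (k : ℕ) (T : Finset ℕ), T.card = k → (∀ J ⊆ T, J.Nonempty → f J = f' J) →
      Es f T = Es f' T := by
  intro k
  induction k using Nat.strong_induction_on with
  | _ k ih =>
    intro T hk hT
    rcases T.eq_empty_or_nonempty with rfl | ⟨a, ha⟩
    · rw [(h A f).1, (h A f').1]
    · rw [(h A f).2 T a ha, (h A f').2 T a ha]
      refine Finset.sum_congr rfl (fun J hJ => ?_)
      rw [Finset.mem_filter, Finset.mem_powerset] at hJ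
      rw [hT J hJ.1 ⟨a, hJ.2⟩, ih (T \ J).card (by rw [← hk]; exact card_sdiff_lt ha hJ.2)
        (T \ J) rfl (fun J' hJ' hne => hT J' (hJ'.trans Finset.sdiff_subset) hne)]

theorem esb2 (h : T_ESA) (A : Type) [CommRing A] (g : Finset ℕ → A) (f : ℕ → ℕ) :
    ∀ (k : ℕ) (T : Finset ℕ), T.card = k → Set.InjOn f {a | a ∈ T} →
      Es g (T.image f) = Es (fun J => g (J.image f)) T := by
  intro k
  induction k using Nat.strong_induction_on with
  | _ k ih =>
    intro T hk hT
    rcases T.eq_empty_or_nonempty with rfl | ⟨a, ha⟩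
    · rw [Finset.image_empty, (h A g).1, (h A _).1]
    · rw [(h A g).2 (T.image f) (f a) (Finset.mem_image_of_mem f ha), (h A _).2 T a ha]
      symm
      refine Finset.sum_bij (fun J _ => J.image f) ?_ ?_ ?_ ?_
      · intro J hJ
        rw [Finset.mem_filter, Finset.mem_powerset] at hJ ⊢
        exact ⟨Finset.image_subset_image hJ.1, Finset.mem_image_of_mem f hJ.2⟩
      · intro J₁ h₁ J₂ h₂ heq
        rw [Finset.mem_filter, Finset.mem_powerset] at h₁ h₂
        have hsub : ∀ J₁ J₂ : Finset ℕ, J₁ ⊆ T → J₂ ⊆ T → J₁.image f = J₂.image f → J₁ ⊆ J₂ := by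
          intro J₁ J₂ h₁ h₂ heq x hx
          have h3 : f x ∈ J₂.image f := heq ▸ Finset.mem_image_of_mem f hx
          obtain ⟨y, hy, hxy⟩ := Finset.mem_image.1 h3
          have := hT (h₂ hy) (h₁ hx) hxy
          rwa [← this]
        exact Finset.Subset.antisymm (hsub J₁ J₂ h₁.1 h₂.1 heq) (hsub J₂ J₁ h₂.1 h₁.1 heq.symm)
      · intro J' hJ'
        rw [Finset.mem_filter, Finset.mem_powerset] at hJ'
        refine ⟨T.filter (fun x => f x ∈ J'), ?_, ?_⟩
        · rw [Finset.mem_filter, Finset.mem_powerset]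
          exact ⟨Finset.filter_subset _ _, Finset.mem_filter.2 ⟨ha, hJ'.2⟩⟩
        · ext y
          rw [Finset.mem_image]
          constructor
          · rintro ⟨x, hx, rfl⟩
            exact (Finset.mem_filter.1 hx).2
          · intro hy
            obtain ⟨x, hx, hxy⟩ := Finset.mem_image.1 (hJ'.1 hy)
            exact ⟨x, Finset.mem_filter.2 ⟨hx, hxy ▸ hy⟩, hxy⟩
      · intro J hJ
        rw [Finset.mem_filter, Finset.mem_powerset] at hJ
        have hsd : T.image f \ J.image f = (T \ J).image f := by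
          ext y
          rw [Finset.mem_sdiff, Finset.mem_image, Finset.mem_image, Finset.mem_image]
          constructor
          · rintro ⟨⟨x, hx, rfl⟩, hn⟩
            exact ⟨x, Finset.mem_sdiff.2 ⟨hx, fun hxJ => hn ⟨x, hxJ, rfl⟩⟩, rfl⟩
          · rintro ⟨x, hx, rfl⟩
            rw [Finset.mem_sdiff] at hx
            refine ⟨⟨x, hx.1, rfl⟩, ?_⟩
            rintro ⟨z, hz, hzx⟩
            have := hT (hJ.1 hz) hx.1 hzx
            exact hx.2 (this ▸ hz)
        rw [hsd, ih (T \ J).card (by rw [← hk]; exact card_sdiff_lt ha hJ.2) (T \ J) rfl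
          (fun x hx y hy hxy => hT (Finset.sdiff_subset hx) (Finset.sdiff_subset hy) hxy)]

theorem esb3 (h : T_ESA) (A B : Type) [CommRing A] [CommRing B] (φ : A →+* B)
    (g : Finset ℕ → A) :
    ∀ (k : ℕ) (T : Finset ℕ), T.card = k → φ (Es g T) = Es (fun J => φ (g J)) T := by
  intro k
  induction k using Nat.strong_induction_on with
  | _ k ih =>
    intro T hk
    rcases T.eq_empty_or_nonempty with rfl | ⟨a, ha⟩
    · rw [(h A g).1, (h B _).1, map_one]
    · rw [(h A g).2 T a ha, (h B _).2 T a ha, map_sum]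
      refine Finset.sum_congr rfl (fun J hJ => ?_)
      rw [Finset.mem_filter, Finset.mem_powerset] at hJ
      rw [map_mul, ih (T \ J).card (by rw [← hk]; exact card_sdiff_lt ha hJ.2) (T \ J) rfl]

theorem esb4 (h : T_ESA) (A : Type) [CommRing A] (g : Finset ℕ → A) (T' : Finset ℕ) :
    ∀ (k : ℕ) (T : Finset ℕ), T.card = k → Disjoint T T' →
    (∀ J ⊆ T ∪ T', (J ∩ T).Nonempty → (J ∩ T').Nonempty → g J = 0) →
    Es g (T ∪ T') = Es g T * Es g T' := by
  intro k
  induction k using Nat.strong_induction_on with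
  | _ k ih =>
    intro T hk hd hg
    rcases T.eq_empty_or_nonempty with rfl | ⟨a, ha⟩
    · rw [Finset.empty_union, (h A g).1, one_mul]
    · rw [(h A g).2 (T ∪ T') a (Finset.mem_union_left _ ha), (h A g).2 T a ha, Finset.sum_mul]
      symm
      refine Finset.sum_subset_zero_on_sdiff (s₁ := T.powerset.filter (fun J => a ∈ J)) ?_ ?_ ?_
      · intro J hJ
        rw [Finset.mem_filter, Finset.mem_powerset] at hJ ⊢
        exact ⟨hJ.1.trans Finset.subset_union_left, hJ.2⟩
      · intro J hJ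
        rw [Finset.mem_sdiff, Finset.mem_filter, Finset.mem_filter, Finset.mem_powerset,
          Finset.mem_powerset] at hJ
        obtain ⟨⟨h1, h2⟩, h3⟩ := hJ
        have h4 : ¬ J ⊆ T := fun hc => h3 ⟨hc, h2⟩
        obtain ⟨b, hb, hbT⟩ := Finset.not_subset.1 h4
        have hbT' : b ∈ T' := (Finset.mem_union.1 (h1 hb)).resolve_left hbT
        rw [hg J h1 ⟨a, Finset.mem_inter.2 ⟨h2, ha⟩⟩ ⟨b, Finset.mem_inter.2 ⟨hb, hbT'⟩⟩, zero_mul]
      · intro J hJ
        rw [Finset.mem_filter, Finset.mem_powerset] at hJ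
        have hdJ : Disjoint J T' := Finset.disjoint_of_subset_left hJ.1 hd
        have hsd : (T ∪ T') \ J = (T \ J) ∪ T' := by
          rw [Finset.union_sdiff_distrib, Finset.sdiff_eq_self_of_disjoint hdJ.symm]
        rw [hsd, ih (T \ J).card (by rw [← hk]; exact card_sdiff_lt ha hJ.2) (T \ J) rfl
          (Finset.disjoint_of_subset_left Finset.sdiff_subset hd), mul_assoc]
        intro J' hJ' h1 h2
        refine hg J' (hJ'.trans (Finset.union_subset_union_left Finset.sdiff_subset)) ?_ h2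
        obtain ⟨x, hx⟩ := h1
        rw [Finset.mem_inter, Finset.mem_sdiff] at hx
        exact ⟨x, Finset.mem_inter.2 ⟨hx.1, hx.2.1⟩⟩

theorem esb (h : T_ESA) : T_ESB :=
  ⟨fun A _ f f' T hT => esb1 h A f f' T.card T rfl hT,
    fun A _ g T f hT => esb2 h A g f T.card T rfl hT,
    fun A B _ _ φ g T => esb3 h A B φ g T.card T rfl,
    fun A _ g T T' hd hg => esb4 h A g T' T.card T rfl hd hg⟩

end Pool.Agent.H13.PK
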