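import Pool.Agent.H63.PK.Targets

/-!
# Row ISO of the board pwk (helper63, MP_559314_gt)

The homomorphism from the polynomial ring is onto in the degrees where the combinations `y` span.
-/

set_option autoImplicit false

namespace Pool.Agent.H13.PK

open Pool.Agent.H59.LIN Pool.Agent.H13.LN Pool.Agent.H63.PK

theorem ya_eq (R : Type) [CommRing R] {d : ℕ} (y : GW d →₀ R) :
    ya R y = Finsupp.linearCombination R (fun l : GW d => cls R l) y := rfl

theorem iso (hALG : T_ALG) : T_ISO := by
  intro R _ r x y n hS
  obtain ⟨-, hrel, hmul, hone, -, -⟩ := hALG R
  have main : ∀ d : ℕ, d ≤ n → ∀ l : GW d, cls R l ∈ (Ph R y).range := by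
    intro d
    induction d using Nat.strong_induction_on with
    | _ d ih =>
      intro hd l
      rcases Nat.eq_zero_or_pos d with rfl | hpos
      · rw [hone l]
        exact one_mem _
      · have hsp := hS d hpos hd l
        have hR : RelM R d ≤ (Subalgebra.toSubmodule (Ph R y).range).comap
            (Finsupp.linearCombination R (fun l : GW d => cls R l)) := by
          refine Submodule.span_le.mpr ?_
          rintro z ⟨y', hy', rfl⟩
          show Finsupp.linearCombination R (fun l : GW d => cls R l)
            (y'.mapRange (Int.cast : ℤ → R) Int.cast_zero) ∈ (Ph R y).range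
          have e1 : Finsupp.linearCombination R (fun l : GW d => cls R l)
              (y'.mapRange (Int.cast : ℤ → R) Int.cast_zero) =
              y'.sum fun l c => (c : R) • cls R l := by
            rw [Finsupp.linearCombination_apply]
            exact Finsupp.sum_mapRange_index (fun l => zero_smul R _)
          rw [e1]
          cases hy' with
          | rel _ h =>
            rw [hrel d y' h]
            exact zero_mem _
          | prod a b l₁ m₁ n₁ ha hb hn =>
            rw [Finsupp.sum_single_index (by rw [Int.cast_zero, zero_smul]), Int.cast_one,
              one_smul, hmul a b d l₁ m₁ n₁ hn]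
            have hlen : d = a + b := by
              have h1 := n₁.2.1
              have h2 := l₁.2.1
              have h3 := m₁.2.1
              rw [hn, List.length_append] at h1
              omega
            exact mul_mem (ih a (by omega) (by omega) l₁) (ih b (by omega) (by omega) m₁)
        have h2 := hR hsp
        have h3 : Finsupp.linearCombination R (fun l : GW d => cls R l)
            (Finsupp.single l 1 - ∑ i, x d i l.1 • y d i) ∈ (Ph R y).range := h2
        rw [map_sub, map_sum, Finsupp.linearCombination_single, one_smul] at h3
        have h4 : ∑ i, Finsupp.linearCombination R (fun l : GW d => cls R l)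
            (x d i l.1 • y d i) ∈ (Ph R y).range := by
          refine sum_mem (fun i _ => ?_)
          rw [map_smul]
          refine Subalgebra.smul_mem _ ?_ _
          refine ⟨MvPolynomial.X ⟨d, i⟩, ?_⟩
          show Ph R y (MvPolynomial.X ⟨d, i⟩) = _
          unfold Ph
          rw [MvPolynomial.aeval_X]
          rfl
        have h5 := add_mem h3 h4
        rwa [sub_add_cancel] at h5
  intro d hd z hz
  have hle : Adeg R d ≤ Subalgebra.toSubmodule (Ph R y).range := by
    refine Submodule.span_le.mpr ?_
    rintro w ⟨l, rfl⟩
    exact main d hd l
  obtain ⟨f, hf⟩ := hle hz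
  exact ⟨f, hf⟩

end Pool.Agent.H13.PK
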