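import Pool.Agent.H3.PK.Targets

/-!
# MP_7886dd_an, module WUS: the sum of the weights is bounded
-/

set_option autoImplicit false

open MeasureTheory Metric Set
open scoped ComplexConjugate

namespace Pool.Agent.H13.PK.WUS

open Pool.Agent.H3.PK

/-- the factors of the bound -/
noncomputable def w {n : ℕ} (y : Fin n → ℝ) (j i : Fin n) (k : ℕ) : ℝ :=
  if i = j then (if k = 0 then 1 else 0) else Real.exp (-(((k : ℝ) - y i) ^ 2 / 2))

lemma w_nonneg {n : ℕ} (y : Fin n → ℝ) (j i : Fin n) (k : ℕ) : 0 ≤ w y j i k := by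
  unfold w
  split_ifs
  · exact zero_le_one
  · exact le_rfl
  · exact (Real.exp_pos _).le

theorem wus (h1 : T_WU) (h2 : T_GSM) : T_WUS := by
  classical
  intro n
  obtain ⟨B, hB, hG⟩ := h2
  refine ⟨n * B ^ n + 1, by positivity, fun N z => ?_⟩
  set y : Fin n → ℝ := fun i => √((N : ℝ) * ‖(z : E n) i‖ ^ 2) with hy
  have hy0 : ∀ i, 0 ≤ y i := fun i => Real.sqrt_nonneg _
  have hterm : ∀ x ∈ LL n N, wt N (al N x) z ≤ ∏ i, w y x.1 i (x.2 i) := by
    intro x hx
    refine (h1 n N (al N x) (sum_al hx) z).trans ?_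
    rw [neg_div, Finset.sum_div, ← Finset.sum_neg_distrib, Real.exp_sum]
    refine Finset.prod_le_prod (fun i _ => (Real.exp_pos _).le) fun i _ => ?_
    obtain ⟨j, k⟩ := x
    simp only [LL, Finset.mem_filter] at hx
    obtain ⟨-, h0, -⟩ := hx
    simp only [w, al]
    by_cases hij : i = j
    · subst hij
      rw [if_pos rfl, if_pos rfl, if_pos h0, Real.exp_le_one_iff]
      have : 0 ≤ (√((N - ∑ l, k l ^ 2 : ℕ) : ℝ) - √((N : ℝ) * ‖(z : E n) i‖ ^ 2)) ^ 2 :=
        sq_nonneg _
      linarith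
    · rw [if_neg hij, if_neg hij]
      have h3 : √(((k i ^ 2 : ℕ) : ℝ)) = (k i : ℝ) := by
        push_cast
        exact Real.sqrt_sq (Nat.cast_nonneg _)
      rw [h3]
  have hsum1 : ∀ j i : Fin n, ∑ k ∈ Finset.range (N + 1), w y j i k ≤ B := by
    intro j i
    by_cases hij : i = j
    · simp only [w, if_pos hij]
      rw [Finset.sum_ite_eq' (Finset.range (N + 1)) 0 (fun _ => (1 : ℝ))]
      split_ifs
      · exact hB
      · linarith
    · simp only [w, if_neg hij]
      exact hG (N + 1) (y i) (hy0 i)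
  calc ∑ x ∈ LL n N, wt N (al N x) z
      ≤ ∑ x ∈ LL n N, ∏ i, w y x.1 i (x.2 i) := Finset.sum_le_sum hterm
    _ ≤ ∑ x ∈ (Finset.univ : Finset (Fin n)) ×ˢ
          Fintype.piFinset fun _ : Fin n => Finset.range (N + 1), ∏ i, w y x.1 i (x.2 i) := by
        refine Finset.sum_le_sum_of_subset_of_nonneg (Finset.filter_subset _ _) fun x _ _ => ?_
        exact Finset.prod_nonneg fun i _ => w_nonneg _ _ _ _
    _ = ∑ j : Fin n, ∑ k ∈ Fintype.piFinset fun _ : Fin n => Finset.range (N + 1),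
          ∏ i, w y j i (k i) := by
        rw [Finset.sum_product]
    _ = ∑ j : Fin n, ∏ i, ∑ k ∈ Finset.range (N + 1), w y j i k := by
        refine Finset.sum_congr rfl fun j _ => ?_
        rw [Finset.prod_univ_sum]
    _ ≤ ∑ _j : Fin n, B ^ n := by
        refine Finset.sum_le_sum fun j _ => ?_
        calc ∏ i, ∑ k ∈ Finset.range (N + 1), w y j i k ≤ ∏ _i : Fin n, B :=
              Finset.prod_le_prod (fun i _ => Finset.sum_nonneg fun k _ => w_nonneg _ _ _ _)
                fun i _ => hsum1 j i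
          _ = B ^ n := by simp
    _ = n * B ^ n := by simp
    _ ≤ n * B ^ n + 1 := by linarith

end Pool.Agent.H13.PK.WUS
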